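import Pool.Agent.SGD.Stmts
import Pool.Agent.Helper56_SGP.CTR

/-!
# Squad SGD, row ARC
-/

noncomputable section

namespace Pool.Agent.SGD.H40

open Pool.Agent.SGE Pool.Agent.SGP Pool.Agent.SGY Pool.Agent.SGD

theorem tri_tail {V : Type} {R : V → V → V → Prop} {t : V} {L : List V} (h : Tri R (t :: L)) :
    Tri R L := by
  match L, h with
  | [], _ => exact trivial
  | [_], _ => exact trivial
  | _ :: _ :: _, h => exact h.2

theorem tri_mid {V : Type} {R : V → V → V → Prop} (A B : List V) (x w y : V)
    (h : Tri R (A ++ x :: w :: y :: B)) : R x w y := by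
  induction A with
  | nil => exact h.1
  | cons t A ih => exact ih (tri_tail h)

/-- two chains with the same start and the same end -/
theorem chain_eq {V : Type} {G : V → V → Prop} (hG : ∀ x y z, G x y → G x z → y = z) (q : V) :
    ∀ (R : List V) (p : V) (T : List V), (p :: (R ++ [q])).IsChain G → (p :: T).IsChain G →
      q ∉ p :: R → (p :: T).getLast? = some q → (p :: T).Nodup → T = R ++ [q] := by
  intro R
  induction R with
  | nil =>
    intro p T h1 h2 h3 h4 h5
    cases T with
    | nil =>
      rw [List.getLast?_singleton, Option.some.injEq] at h4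
      exact absurd (by simp [h4]) h3
    | cons t T =>
      rw [List.isChain_cons_cons] at h2
      rw [List.nil_append, List.isChain_cons_cons] at h1
      have h6 := hG _ _ _ h2.1 h1.1
      subst h6
      cases T with
      | nil => rfl
      | cons s T =>
        exfalso
        rw [List.getLast?_cons_cons, List.getLast?_cons_cons] at h4
        have h7 := List.mem_of_getLast? h4
        rw [List.nodup_cons, List.nodup_cons] at h5
        exact h5.2.1 h7
  | cons r R ih =>
    intro p T h1 h2 h3 h4 h5
    cases T with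
    | nil =>
      rw [List.getLast?_singleton, Option.some.injEq] at h4
      exact absurd (by simp [h4]) h3
    | cons t T =>
      rw [List.isChain_cons_cons] at h2
      rw [List.cons_append, List.isChain_cons_cons] at h1
      have h6 := hG _ _ _ h2.1 h1.1
      subst h6
      rw [List.getLast?_cons_cons] at h4
      rw [List.nodup_cons] at h5
      rw [ih t T h1.2 h2.2 (fun h => h3 (List.mem_cons_of_mem _ h)) h4 h5.2, List.cons_append]

/-- **ARC** -/
theorem arc : ArcStmt := by
  intro V _ a b c E F K C₁ C₂ h P p v q Q hC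
  have hn := h.n1.nd
  have hhd := h.n1.hd
  have hls := h.n1.ls
  rw [hC] at hn hhd hls
  have hvC : v ∈ C₁ := by rw [hC]; simp
  obtain ⟨y0, hy0⟩ := SGP.H56.contour_nb h.n1 hvC
  have hvK : v ∉ K ∪ {c} := hy0.2.1
  have hvc : v ≠ c := by
    rintro rfl
    exact hvK (Or.inr rfl)
  have hn2 : (P ++ p :: v :: q :: Q).Nodup := hn
  rw [List.nodup_append, List.nodup_cons, List.nodup_cons, List.nodup_cons] at hn2
  obtain ⟨_, ⟨hp1, hv1, hq1, _⟩, hdis⟩ := hn2
  have hva : v ≠ a := by
    rintro rfl
    cases P with
    | nil =>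
      rw [List.nil_append, List.head?_cons, Option.some.injEq] at hhd
      exact hp1 (by simp [hhd])
    | cons s P =>
      rw [List.cons_append, List.head?_cons, Option.some.injEq] at hhd
      exact hdis s (by simp) v (by simp) hhd
  have hvb : v ≠ b := by
    rintro rfl
    have h1 : (P ++ p :: v :: q :: Q) = (P ++ [p, v]) ++ (q :: Q) := by simp
    rw [h1, List.getLast?_append_of_ne_nil _ (by simp)] at hls
    exact hv1 (List.mem_of_getLast? hls)
  have hfan : Fan (offE E (K ∪ {c})) (offF F (K ∪ {c})) p v q := by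
    have h1 := h.n1.bd
    rw [hC] at h1
    have h2 : b :: ((P ++ p :: v :: q :: Q) ++ [a]) = (b :: P) ++ p :: v :: q :: (Q ++ [a]) := by
      simp
    rw [h2] at h1
    exact tri_mid _ _ _ _ _ h1
  obtain ⟨l', hl1, hl2, hl3, hl4, hl5, hl6⟩ := hfan
  have hql' : q ∈ l' := List.mem_of_getLast? hl2
  have hpl' : p ∈ l' := List.mem_of_head? hl1
  have hEq := (hl5 q).2 hql'
  have hEp := (hl5 p).2 hpl'
  have hmem : v ∉ [a, c, b] := by
    simp only [List.mem_cons, List.not_mem_nil, or_false, not_or]
    exact ⟨hva, hvc, hvb⟩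
  obtain ⟨l, hc1, hc2, hc3⟩ := h.nt.int v q hmem hEq.1
  have hpq : p ≠ q := by
    rintro rfl
    exact hp1 (by simp)
  have hpl : p ∈ l := by
    have h1 := (hc3 p).1 hEp.1
    rw [List.mem_cons] at h1
    rcases h1 with h1 | h1
    · exact absurd h1 hpq
    · exact h1
  obtain ⟨Y, R, rfl⟩ := List.append_of_mem hpl
  have hc2' := hc2
  rw [List.nodup_cons, List.nodup_append, List.nodup_cons] at hc2'
  obtain ⟨hq2, hY, ⟨hpR, _⟩, hdis2⟩ := hc2'
  -- the fan is the second part of the cycle
  have hl : l' = p :: (R ++ [q]) := by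
    cases l' with
    | nil => simp at hl1
    | cons t T =>
      rw [List.head?_cons, Option.some.injEq] at hl1
      subst hl1
      have h1 : (t :: (R ++ [q])).IsChain (F v) := by
        have h2 : q :: ((Y ++ t :: R) ++ [q]) = (q :: Y) ++ (t :: (R ++ [q])) := by simp
        rw [h2] at hc1
        exact hc1.right_of_append
      have h3 : (t :: T).IsChain (F v) := hl3.imp (fun _ _ hxy => hxy.1)
      rw [chain_eq (G := F v) (fun x y z hxy hxz => h.nt.fn _ _ _ _ hxy hxz) q R t T h1 h3 ?_ hl2 hl4]
      intro h4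
      exact hq2 (List.mem_append_right _ h4)
  refine ⟨Y, ?_, ?_, hY, ?_⟩
  · rintro rfl
    rw [List.nil_append, List.cons_append, List.isChain_cons_cons] at hc1
    exact hl6 p ⟨hc1.1, hvK, hEq.2.2, hEp.2.2⟩
  · have h2 : q :: ((Y ++ p :: R) ++ [q]) = (q :: (Y ++ [p])) ++ (R ++ [q]) := by simp
    rw [h2] at hc1
    exact hc1.left_of_append
  · intro y
    constructor
    · intro hy
      have h1 : E v y := (hc3 y).2 (by simp [hy])
      refine ⟨h1, ?_⟩
      by_contra h2
      have h3 : y ∈ l' := (hl5 y).1 ⟨h1, hvK, h2⟩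
      rw [hl, List.mem_cons, List.mem_append, List.mem_singleton] at h3
      rcases h3 with h3 | h3 | h3
      · exact hdis2 y hy p (by simp) h3
      · exact hdis2 y hy y (by simp [h3]) rfl
      · exact hq2 (by rw [← h3]; exact List.mem_append_left _ hy)
    · rintro ⟨h1, h2⟩
      have h3 := (hc3 y).1 h1
      have h4 : y ∉ l' := fun h5 => ((hl5 y).2 h5).2.2 h2
      rw [hl, List.mem_cons, List.mem_append, List.mem_singleton] at h4
      rw [List.mem_cons, List.mem_append, List.mem_cons] at h3
      tauto

end Pool.Agent.SGD.H40
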